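import Pool.Agent.Y506.PV.Fin

/-!
# KLS for the marginals of projections of sections

Q1, in the form of the inequality for sets of measure one half, for the uniform measures on all
convex bodies in `ℝ^m` which are affine images of bodies `K ⊂ ℝ^k`, `k ≤ m + r`, where `K` is given
by few functionals, and for the laws of all their linear images (in particular for all marginals).
Here `K` is an intersection of at most `k + q` halfspaces or slabs, or `K = {∑_{i < N} φ_i(⟪v_i, x⟫)
≤ 1}`, `N ≤ k + q`, with functions `φ_i` on the line which are homogeneous of degree `p ≥ 1` (not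
necessarily even), or a central section of codimension at most `q` of a product of generalised `ℓ_p`
balls, `p ≥ 2`, or of symmetric bodies of dimension at most `B`. The constant depends on `q, r, B,
p` only, the dimensions are arbitrary, and in the first two classes no symmetry is assumed. Examples
are the uniform measures on polytopes of extension complexity at most `m + q` (facets, or vertices:
theorem `few_vertices`), on sections of codimension `q` of `ℓ_p` balls, `1 ≤ p ≤ ∞`, and on
projections of corank `r` of all these bodies, for instance zonotopes with at most `m + q`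
generators. For a log-concave measure the infimum which defines `ψ_μ` is attained for sets of
measure one half (concavity of the isoperimetric profile, see the list of known facts in
`MP_8d00da_gt`), so this is `ψ_μ √‖A‖ ≥ c` for these measures.

Method. (1) A density `∏ h_i(⟪v_i, x⟫)`, `i < N ≤ m + q`, is after an affine change of variables and
exponential tilts of the factors by a vector orthogonal to the range of `x ↦ (⟪v_i, x⟫)_i` the
section, by a linear subspace `A` of codimension `d ≤ q`, of a product density `ρ` on `ℝ^N` whose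
factors `f_i` have mean zero and variance one. Let `F` be the orthogonal complement of `A`, let
`π_i` be the squared norm of the projection of the `i`-th basis vector to `F`, and let `T_i(·, a)`
be the monotone map of `f_i` to its tilt by `exp (a s)`. New here is the thickening map `(t, λ) ↦
(T_i(t_i, λ_i))`, `t ∈ A`, `λ ∈ F` small. It is injective, the terms of first order in `λ` of its
Jacobian and of the density cancel because `λ` is orthogonal to `t`, its determinant is bounded
below by `∏ κ_i(t_i) ^ π_i`, `κ = min(∫_{-∞}^t f, ∫_t^∞ f) / f(t)`, and it moves a point by at most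
`C (∑ π_i (1 + |s_i|)²)^{1/2}`, which has a bounded expectation under `ρ`. So a set of points of the
section where a Lipschitz function is far from its mean under `ρ` has, with the weight `exp (-Y)`,
`Y = ∑ π_i (1 + |t_i| + (log 1/κ_i)₊)`, a small measure by the Poincare inequality of `ρ`; and the
expectation of `Y` under the section is bounded. With estimates for isotropic log-concave densities
in dimension `d` and `d + 1` (marginals of `ρ`), and approximation, this gives the concentration of
Lipschitz functions on a constant scale, relative to the covariance, for the density and for all its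
linear images. (2) If `Φ` is homogeneous of degree `p` then `exp (-Φ)` is the mixture of the uniform
measures on the dilates of `{Φ ≤ 1}`, and the relative variance of the radial variable is at most `p
/ n`; so the concentration passes to `{Φ ≤ 1}`. For `Powers` and `Blocks` it follows from Poincare
inequalities (see `SectionsOfProducts`, `PowerSums`). (3) The image of the uniform measure on a
convex body under a linear map with kernel of dimension one has a concave density `u` on the image
of the body. By the Prekopa-Leindler inequality the set `{u < ε τ}` has normalised measure at most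
`ε` for a suitable `τ` comparable to the mean of `u`, and fourth moments of linear functionals are
at most a constant times the squares of their variances; so the concentration passes to the uniform
measure on the image. This is iterated `r` times. (E. Milman's theorem on the stability of
isoperimetric constants of log-concave measures under perturbations in total variation could be used
in this step; so for `q = 0` the result follows from known facts about products and `ℓ_p` balls, and
the new case is `q ≥ 1`.) (4) Concentration on a constant scale for all linear images implies the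
isoperimetric inequality for sets of measure one half by a heat flow argument (modules `KH` of the
starting files).

The proofs of the lemmas of the modules `RG` are by helpers 849, 901, 401, 252, 950, 864, 429, 210,
445, 809, 487, 287, 510, 333, 497, 592, 65, and of the modules `PV` by helpers 824, 625, 252, 279,
941, 388, 211, 592, 427, 363, 151, 532, 179.
-/

set_option autoImplicit false

namespace Pool.Agent.Results.MP_6d896a_gt.ImagesOfSections

open MeasureTheory Set
open scoped ENNReal InnerProductSpace

/-- Euclidean space of dimension `n` -/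
abbrev Euc (n : ℕ) : Type := EuclideanSpace ℝ (Fin n)

/-- convex body `D = -D`: compact, convex, symmetric, with nonempty interior -/
structure SymmetricBody {k : ℕ} (D : Set (Euc k)) : Prop where
  conv : Convex ℝ D
  comp : IsCompact D
  int : (interior D).Nonempty
  symm : ∀ x ∈ D, -x ∈ D

/-- `a (s₊)^p + b (s₋)^p`, where `a, b ∈ [0, ∞]` and `∞ · 0 = 0` -/
noncomputable def power (p : ℝ) (a b : ℝ≥0∞) (s : ℝ) : ℝ≥0∞ :=
  a * ENNReal.ofReal (max s 0 ^ p) + b * ENNReal.ofReal (max (-s) 0 ^ p)

/-- `K = {x | ⟪v_i, x⟫ ∈ I_i for all i < N}` with closed intervals `I_i` (which may be unbounded),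
`N ≤ m + q`: intersections of `m + q` halfspaces or slabs in `ℝ^m` -/
def Slabs (q : ℕ) {m : ℕ} (K : Set (Euc m)) : Prop :=
  ∃ (N : ℕ) (v : Fin N → Euc m) (I : Fin N → Set ℝ), N ≤ m + q ∧ (∀ i, IsClosed (I i)) ∧
    (∀ i, (I i).OrdConnected) ∧ K = {x | ∀ i, ⟪v i, x⟫_ℝ ∈ I i}

/-- `K = {x | ∑_{i < N} (a_i ⟪v_i, x⟫₊^p + b_i ⟪v_i, x⟫₋^p) ≤ 1}`, `a_i, b_i ∈ [0, ∞]`, `N ≤ m + q` -/
def Sums (p : ℝ) (q : ℕ) {m : ℕ} (K : Set (Euc m)) : Prop :=
  ∃ (N : ℕ) (v : Fin N → Euc m) (a b : Fin N → ℝ≥0∞), N ≤ m + q ∧
    K = {x | ∑ i, power p (a i) (b i) ⟪v i, x⟫_ℝ ≤ 1}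

/-- `K = {x | ∑_{j < k_i} |ℓ_ij(x)|^{e_ij} ≤ 1 for all i < M}`, `e_ij ≥ 2`, `∑ k_i ≤ m + q` -/
def Powers (q : ℕ) {m : ℕ} (K : Set (Euc m)) : Prop :=
  ∃ (M : ℕ) (k : Fin M → ℕ) (e : ∀ i, Fin (k i) → ℝ) (l : ∀ i, Fin (k i) → (Euc m →ₗ[ℝ] ℝ)),
    (∀ i, 1 ≤ k i) ∧ ∑ i, k i ≤ m + q ∧ (∀ i j, 2 ≤ e i j) ∧
    K = {x | ∀ i, ∑ j, |l i j x| ^ e i j ≤ 1}

/-- `K = {x | Q_i x ∈ D_i for all i < M}` with linear maps `Q_i : ℝ^m → ℝ^{k_i}` and symmetric convex
bodies `D_i`, `k_i ≤ B`, `∑ k_i ≤ m + q` -/
def Blocks (B q : ℕ) {m : ℕ} (K : Set (Euc m)) : Prop :=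
  ∃ (M : ℕ) (k : Fin M → ℕ) (Q : ∀ i, Euc m →ₗ[ℝ] Euc (k i)) (D : ∀ i, Set (Euc (k i))),
    (∀ i, k i ≤ B) ∧ ∑ i, k i ≤ m + q ∧ (∀ i, SymmetricBody (D i)) ∧ K = {x | ∀ i, Q i x ∈ D i}

/-- the bodies of which images are taken: bounded, with nonempty interior, and of one of the four
kinds `Slabs`, `Sums`, `Powers`, `Blocks`, with at most `q` functionals more than the dimension -/
structure Section (B q : ℕ) (p : ℝ) {m : ℕ} (K : Set (Euc m)) : Prop where
  bdd : Bornology.IsBounded K
  int : (interior K).Nonempty
  rep : Slabs q K ∨ Sums p q K ∨ Powers q K ∨ Blocks B q K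

/-- the uniform probability measure on `K` -/
noncomputable def unif {m : ℕ} (K : Set (Euc m)) : Measure (Euc m) :=
  (volume K)⁻¹ • volume.restrict K

/-- the boundary measure `μ⁺(S)`, the lower limit of `(μ(S_ε) - μ(S)) / ε` for the open
neighbourhoods `S_ε` of `S` -/
noncomputable def bdry {n : ℕ} (μ : Measure (Euc n)) (S : Set (Euc n)) : ℝ≥0∞ :=
  Filter.liminf (fun ε : ℝ => (μ (Metric.thickening ε S) - μ S) / ENNReal.ofReal ε)
    (nhdsWithin 0 (Set.Ioi 0))

/-- `μ⁺(S) √s ≥ c min(μ S, μ Sᶜ)` for all measurable sets `S` of measure one half and for every bound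
`s` of the variances of the marginals of `μ` in directions of length one -/
def KLSHalf {n : ℕ} (c : ℝ) (μ : Measure (Euc n)) : Prop :=
  ∀ s : ℝ, 0 < s →
    (∀ θ : Euc n, ‖θ‖ = 1 → ProbabilityTheory.variance (fun x => ⟪x, θ⟫_ℝ) μ ≤ s) →
    ∀ S : Set (Euc n), MeasurableSet S → μ S = 1 / 2 →
      ENNReal.ofReal (c / Real.sqrt s) * min (μ S) (μ Sᶜ) ≤ bdry μ S

theorem base_of {B q : ℕ} {p : ℝ} {m : ℕ} {K : Set (Euc m)} (h : Section B q p K) :
    Pool.Agent.Y506.PV.Base q B p K := by
  refine ⟨h.bdd, h.int, ?_⟩
  rcases h.rep with h | h | h | h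
  · obtain ⟨N, v, I, hN, hI1, hI2, hK⟩ := h
    exact Or.inl ⟨N, hN, v, I, hI1, hI2, hK⟩
  · obtain ⟨N, v, a, b, hN, hK⟩ := h
    exact Or.inr (Or.inl ⟨N, hN, v, a, b, hK⟩)
  · obtain ⟨M, k, e, l, hk, hs, he, hK⟩ := h
    refine Or.inr (Or.inr (Or.inl ⟨M, k, hs, hk, e, fun i j =>
      LinearMap.toContinuousLinearMap (l i j), he, ?_⟩))
    rw [hK]
    rfl
  · obtain ⟨M, k, Q, D, hk, hs, hD, hK⟩ := h
    refine Or.inr (Or.inr (Or.inr ⟨M, k, hs, hk, fun i => LinearMap.toContinuousLinearMap (Q i),
      D, fun i => ⟨(hD i).comp.measurableSet, (hD i).conv, (hD i).comp.isBounded, (hD i).symm,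
        (hD i).int⟩, fun i => (hD i).comp.isClosed, ?_⟩))
    rw [hK]
    rfl

/-- the functional inequality for affine images -/
theorem star_of {c : ℝ} {B q r : ℕ} {p : ℝ} (H : ∀ (n m : ℕ) (K : Set (Euc m))
    (A : Euc m →ₗ[ℝ] Euc n), 1 ≤ n → m ≤ n + r → Pool.Agent.Y506.PV.Base q B p K →
    Function.Surjective A → IsCompact (A '' K) ∧ Convex ℝ (A '' K) ∧ (interior (A '' K)).Nonempty ∧
    Pool.Agent.Y506.RG.Star c (Pool.Agent.Y506.PV.ind (A '' K))) {m n : ℕ} {K : Set (Euc m)}
    (T : Euc m →ᵃ[ℝ] Euc n) (hn : 1 ≤ n) (hm : m ≤ n + r) (hK : Section B q p K)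
    (hT : Function.Surjective T) : IsCompact (T '' K) ∧ Convex ℝ (T '' K) ∧
    (interior (T '' K)).Nonempty ∧
    Pool.Agent.Y506.RG.Star c (Pool.Agent.Y506.PV.ind (T '' K)) := by
  have hTL : ∀ x, T x = T.linear x + T 0 := fun x => by
    have h := T.map_vadd 0 x
    simpa [vadd_eq_add] using h
  have hA : Function.Surjective T.linear := by
    intro y
    obtain ⟨x, hx⟩ := hT (y + T 0)
    refine ⟨x, ?_⟩
    have h := hTL x
    rw [hx] at h
    exact (add_right_cancel h).symm
  obtain ⟨h1, h2, h3, h4⟩ := H n m K T.linear hn hm (base_of hK) hA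
  have he : T '' K = (fun y => y + T 0) '' (T.linear '' K) := by
    rw [image_image]
    exact image_congr fun x _ => hTL x
  have hcp : IsCompact (T '' K) := by
    rw [he]
    exact h1.image (by fun_prop)
  refine ⟨hcp, ?_, ?_, ?_⟩
  · rw [he]
    have h := h2.translate (T 0)
    have e : (fun y => y + T 0) = fun y => T 0 + y := funext fun y => add_comm _ _
    rw [e]
    exact h
  · rw [he]
    have hop : IsOpen ((fun y => y + T 0) '' interior (T.linear '' K)) :=
      (Homeomorph.addRight (T 0)).isOpenMap _ isOpen_interior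
    exact (h3.image _).mono (interior_maximal (image_mono interior_subset) hop)
  · rw [he]
    exact Pool.Agent.Y506.PV.star_trans _ _ (Pool.Agent.Y506.PV.adm_ind _ h1.measurableSet
      h1.isBounded (Pool.Agent.Y506.PV.vol_pos h3)) h4

/-- from the functional inequality to all linear images -/
theorem images_of {m : ℕ} {K : Set (Euc m)} (hK : IsCompact K) (hi : (interior K).Nonempty)
    {c : ℝ} (hc : 0 < c) (hs : Pool.Agent.Y506.RG.Star c (Pool.Agent.Y506.PV.ind K)) (n : ℕ)
    (L : Euc m →ₗ[ℝ] Euc n) : IsProbabilityMeasure (Measure.map L (unif K)) ∧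
      KLSHalf (1 / (4 * c)) (Measure.map L (unif K)) := by
  have hA := Pool.Agent.Y506.PV.adm_ind K hK.measurableSet hK.isBounded
    (Pool.Agent.Y506.PV.vol_pos hi)
  have h := Pool.Agent.Y506.RG.half_of_star Pool.Agent.Y429.RG.minkm hA c hc hs n L
    (Measure.map L (Pool.Agent.Y506.RG.pm (Pool.Agent.Y506.PV.ind K))) rfl
  rw [Pool.Agent.Y506.PV.pm_ind K hK.measurableSet] at h
  obtain ⟨hp, H⟩ := h
  have hp' : IsProbabilityMeasure (Measure.map L (unif K)) := hp
  refine ⟨hp', fun s hs hvar S hS hS2 => ?_⟩
  refine le_trans ?_ (H s hs hvar S hS2)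
  calc _ ≤ ENNReal.ofReal (1 / (4 * c) / Real.sqrt s) * 1 :=
        mul_le_mul_right ((min_le_left _ _).trans prob_le_one) _
    _ = _ := mul_one _

/-- **KLS for the marginals of projections of sections.** For all `q, r, B` and `p ≥ 1` there is a
constant `c > 0` such that for all `m ≥ 1`, all affine maps `T` of `ℝ^k` onto `ℝ^m`, `k ≤ m + r`, all
bodies `K ⊂ ℝ^k` of the class `Section B q p`, and all linear maps `L : ℝ^m → ℝⁿ`, the law `μ` of `L x`,
`x` uniform on `T '' K`, is a probability measure with `μ⁺(S) √‖A‖ ≥ c min(μ S, μ Sᶜ)` for all measurable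
`S` with `μ S = 1/2`, where `A` is the covariance matrix of `μ`. -/
theorem result : ∀ (q r B : ℕ) (p : ℝ), 1 ≤ p → ∃ c : ℝ, 0 < c ∧
    ∀ (k m : ℕ) (K : Set (Euc k)) (T : Euc k →ᵃ[ℝ] Euc m), 1 ≤ m → k ≤ m + r →
    Section B q p K → Function.Surjective T →
    ∀ (n : ℕ) (L : Euc m →ₗ[ℝ] Euc n) (μ : Measure (Euc n)),
      μ = Measure.map L (unif (T '' K)) → IsProbabilityMeasure μ ∧ KLSHalf c μ := by
  intro q r B p hp
  obtain ⟨c, hc, H⟩ := Pool.Agent.Y506.PV.fin_img q r B p hp
  refine ⟨1 / (4 * c), by positivity, fun k m K T hm hk hK hT n L μ hμ => ?_⟩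
  obtain ⟨h1, h2, h3, h4⟩ := star_of H T hm hk hK hT
  rw [hμ]
  exact images_of h1 h3 hc h4 n L

/-- The case of polytopes with at most `m + q` vertices. -/
theorem few_vertices : ∀ q : ℕ, ∃ c : ℝ, 0 < c ∧ ∀ (m N : ℕ) (x : Fin N → Euc m), 1 ≤ m →
    N ≤ m + q → (interior (convexHull ℝ (range x))).Nonempty →
    ∀ (n : ℕ) (L : Euc m →ₗ[ℝ] Euc n) (μ : Measure (Euc n)),
      μ = Measure.map L (unif (convexHull ℝ (range x))) → IsProbabilityMeasure μ ∧ KLSHalf c μ := by
  intro q
  obtain ⟨c, hc, H⟩ := result 1 q 0 1 le_rfl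
  refine ⟨c, hc, fun m N x hn hN hint => ?_⟩
  rcases N with _ | M
  · exfalso
    rw [range_eq_empty x, convexHull_empty, interior_empty] at hint
    exact not_nonempty_empty hint
  obtain ⟨A, v, I, hA, hI1, hI2, hb, hi, he⟩ := Pool.Agent.Y179.PV.vert m M x hint
  have h := H M m _ (A.toAffineMap + AffineMap.const ℝ (Euc M) (x 0)) hn (by omega)
    ⟨hb, hi, Or.inl ⟨M + 1, v, I, le_rfl, hI1, hI2, rfl⟩⟩ (fun y => by
      obtain ⟨z, hz⟩ := hA (y - x 0)
      exact ⟨z, by simp [hz]⟩)
  have e : ((A.toAffineMap + AffineMap.const ℝ (Euc M) (x 0) : Euc M →ᵃ[ℝ] Euc m) : Euc M → Euc m) =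
      fun y => A y + x 0 := by
    funext y
    simp
  rw [e, ← he] at h
  exact h

end Pool.Agent.Results.MP_6d896a_gt.ImagesOfSections
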