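import Pool.Agent.Y506.KS.Pm

/-!
# KLS for marginals of sections of products of generalised `ℓ_p` balls, `p ≥ 2`

Q1 for the laws of all linear images `T X` (in particular of all marginals) of random vectors `X`
uniform on a convex body `K = {x ∈ ℝ^d : ∑_j |ℓ_ij(x)|^{p_ij} ≤ 1 for all i < N}` with linear
functionals `ℓ_ij`, `i < N`, `j < m_i`, real exponents `p_ij ≥ 2` (all of them may be different) and
`∑ m_i ≤ d + q`, where `d`, the `m_i` and `N` are arbitrary. These `K` are the central sections of
codimension at most `q` of linear images of products of generalised `ℓ_p` balls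
`{s ∈ ℝ^m : ∑ |s_j|^{p_j} ≤ 1}` of arbitrary dimensions. The constant is `c / (1 + q)²`. Examples of
bodies: the central sections of codimension `q` of `ℓ_p` balls, `p ≥ 2`, and of their products; any of
these bodies cut by `q` symmetric slabs; with `p_ij = 2` the intersections of ellipsoidal cylinders of
total dimension `d + q`; with `m_i = 1` the symmetric polytopes with `2 (d + q)` facets. Examples of
marginals: integrating out `k` coordinates with exponents `r_1, …, r_k` which occur only in the first
sum gives on this body the density `(1 - ∑_j |ℓ_1j(x)|^{p_1j})^{1/r_1 + … + 1/r_k}`.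

Method. After a linear change of variables `ℝ^d` is the orthogonal complement of a `q`-dimensional
subspace of `∏ ℝ^{m_i}`, and the posteriors of the Gaussian channel with input uniform on `K` are
sections of products of Gaussian tilts of the bodies `B = {s ∈ ℝ^m : G(s) ≤ 1}`,
`G(s) = (1/M) ∑ |s_j|^{p_j}`, `M = ∑ 1/p_j`. New here is a bound for the covariance of all tilts
`exp(⟪a, s⟫ - b |s|²)` of `B` by an absolute constant, for all `m`, `p_j`, `a`, `b`. The tilted body is
the section `t = 1` of the log-concave density `exp(- α t + ⟪a, s⟫ - b |s|²)` on `{(s, t) : G(s) ≤ t}`,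
whose marginal in `s` is a product of one-dimensional densities. With `α` the logarithmic growth at
`t = 1` of the tilted volume of `{G ≤ t}` the section goes through a mode of `t`, hence its covariance
is at most a constant times the one of the product; coordinatewise dilations give `α ≥ M / 4` if
`b ≤ 1/8`; and the variances of the one-dimensional tilts of `exp(- |s|^p / 4)` are bounded by means of
the density of `(X - Y) / 2` given `X + Y`, which does not depend on `a`. For `b ≥ 1/8` the
Brascamp-Lieb inequality is enough. The rest is as in `SectionsOfProducts`: sections and products are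
compared by the Prekopa-Leindler inequality, which gives the Poincare inequality with constant
`C (1 + q)⁴` times the largest variance, and this implies the Cheeger inequality (modules `KH` of the
starting files). A linear image `T X` is the limit for `ε → 0` of `(T X, ε X)`, which is uniform on a
body of the same class.
-/

set_option autoImplicit false

namespace Pool.Agent.Results.MP_6d896a_gt.PowerSumMarginals

open MeasureTheory Set
open scoped ENNReal InnerProductSpace

/-- Euclidean space of dimension `n` -/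
abbrev Euc (n : ℕ) : Type := EuclideanSpace ℝ (Fin n)

/-- `{x | ∑_j |ℓ_ij x| ^ p_ij ≤ 1 for all i}` -/
def powerBody {d N : ℕ} {m : Fin N → ℕ} (p : ∀ i, Fin (m i) → ℝ)
    (ell : ∀ i, Fin (m i) → (Euc d →ₗ[ℝ] ℝ)) : Set (Euc d) :=
  {x | ∀ i, ∑ j, |ell i j x| ^ p i j ≤ 1}

/-- the uniform probability measure on `K` -/
noncomputable def unif {d : ℕ} (K : Set (Euc d)) : Measure (Euc d) :=
  (volume K)⁻¹ • volume.restrict K

/-- the boundary measure `μ⁺(S)`, the lower limit of `(μ(S_ε) - μ(S)) / ε` for the open
neighbourhoods `S_ε` of `S` -/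
noncomputable def bdry {n : ℕ} (μ : Measure (Euc n)) (S : Set (Euc n)) : ℝ≥0∞ :=
  Filter.liminf (fun ε : ℝ => (μ (Metric.thickening ε S) - μ S) / ENNReal.ofReal ε)
    (nhdsWithin 0 (Set.Ioi 0))

/-- `ψ_μ √s ≥ c` for every bound `s` of the variances of the marginals of `μ` in directions of length
one, that is, `ψ_μ √‖A‖ ≥ c` with `A` the covariance matrix of `μ` -/
def KLSBound {n : ℕ} (c : ℝ) (μ : Measure (Euc n)) : Prop :=
  ∀ s : ℝ, 0 < s →
    (∀ θ : Euc n, ‖θ‖ = 1 → ProbabilityTheory.variance (fun x => ⟪x, θ⟫_ℝ) μ ≤ s) →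
    ∀ S : Set (Euc n), MeasurableSet S →
      ENNReal.ofReal (c / Real.sqrt s) * min (μ S) (μ Sᶜ) ≤ bdry μ S

/-- **KLS for marginals of sections of products of generalised `ℓ_p` balls, `p ≥ 2`.** There is an
absolute constant `c > 0` such that for all `d ≥ 1`, `q ≥ 0`, all `N`, all `m_i ≥ 1` with
`∑ m_i ≤ d + q`, all real exponents `p_ij ≥ 2` and all linear functionals `ℓ_ij` on `ℝ^d`, `i < N`,
`j < m_i`, for which `K = {x | ∑_j |ℓ_ij(x)|^{p_ij} ≤ 1 for all i}` is bounded, and all linear maps
`T : ℝ^d → ℝⁿ`: the law `μ` of `T X`, `X` uniform on `K`, is a probability measure with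
`ψ_μ √‖A‖ ≥ c / (1 + q)²`. -/
theorem result : ∃ c : ℝ, 0 < c ∧ ∀ (d q N : ℕ) (m : Fin N → ℕ) (p : ∀ i, Fin (m i) → ℝ)
    (ell : ∀ i, Fin (m i) → (Euc d →ₗ[ℝ] ℝ)), 1 ≤ d → (∀ i, 1 ≤ m i) → ∑ i, m i ≤ d + q →
    (∀ i j, 2 ≤ p i j) → Bornology.IsBounded (powerBody p ell) →
    ∀ (n : ℕ) (T : Euc d →ₗ[ℝ] Euc n) (μ : Measure (Euc n)),
      μ = Measure.map T (unif (powerBody p ell)) →
      IsProbabilityMeasure μ ∧ KLSBound (c / (1 + q) ^ 2) μ := by
  refine ⟨1 / (2 * Real.sqrt 80 * (4 * Real.sqrt 116486307840)) / Real.sqrt 2, by positivity, ?_⟩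
  intro d q N m p ell hd hm hsum hp hbd n T μ hμ
  have hne' : Nonempty (Fin d) := ⟨⟨0, hd⟩⟩
  let L : ∀ i, Fin (m i) → (Euc d →L[ℝ] ℝ) := fun i j => LinearMap.toContinuousLinearMap (ell i j)
  have hK : powerBody p ell = Pool.Agent.Y506.KS.PB p L := rfl
  unfold unif at hμ
  rw [hK] at hbd hμ
  have hm' : ∀ i, 0 < m i := fun i => Nat.lt_of_lt_of_le Nat.zero_lt_one (hm i)
  have hcomp : IsCompact (Pool.Agent.Y506.KS.PB p L) :=
    Metric.isCompact_of_isClosed_isBounded (Pool.Agent.Y506.KS.PB_closed hp) hbd
  have hvol : 0 < volume (Pool.Agent.Y506.KS.PB p L) :=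
    lt_of_lt_of_le (isOpen_interior.measure_pos volume (Pool.Agent.Y506.KS.PB_int hp))
      (measure_mono interior_subset)
  refine ⟨?_, ?_⟩
  · have := Pool.Agent.Y506.KS.unif_prob hvol hcomp.measure_lt_top.ne
    rw [hμ]
    exact Measure.isProbabilityMeasure_map T.continuous_of_finiteDimensional.measurable.aemeasurable
  · intro s hs hcov S hS
    have key := Pool.Agent.Y506.KS.PB_cheeger hm' hp q (by simpa using hsum) hbd T μ hμ s hs hcov
      S hS
    refine le_trans ?_ key
    have h1 : 1 / (2 * Real.sqrt 80 * (4 * Real.sqrt 116486307840)) / Real.sqrt 2 / (1 + q) ^ 2 /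
        Real.sqrt s = 1 / (2 * Real.sqrt 80 * (4 * Real.sqrt 116486307840)) / (1 + q) ^ 2 /
        Real.sqrt (2 * s) := by
      rw [Real.sqrt_mul (by norm_num)]
      simp only [div_div]
      congr 1
      ring
    rw [h1]
    have h2 := Pool.Agent.Y506.KS.const_le q
    gcongr

end Pool.Agent.Results.MP_6d896a_gt.PowerSumMarginals
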