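import Pool.Agent.Y506.PV.All
import Pool.Agent.Y506.PV.Ker
import Pool.Agent.Y506.PV.Mom

/-!
# KLS for products of few ridge functions and for their marginals

Q1, in the form of the inequality for sets of measure one half, for all log-concave measures on
`ℝ^m` with a density proportional to `∏_{i < N} h_i(⟪v_i, x⟫)`, `N ≤ m + q`, with arbitrary
log-concave functions `h_i` on the line and arbitrary directions `v_i`, and for the laws of all
their linear images (in particular for all marginals). No symmetry is assumed. The constant depends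
on `q` only, the dimensions are arbitrary. The case `q = 0` are the linear images of product
measures; for `q ≥ 1` these are product measures on `ℝ^N` restricted to affine subspaces of
codimension `q`, or product measures on `ℝ^m` multiplied by `q` log-concave ridge functions. The
case where all `h_i` are indicator functions of halflines are the uniform measures on the polytopes
with at most `m + q` facets (theorem `polytopes`). For a log-concave measure the infimum which
defines `ψ_μ` is attained for sets of measure one half (concavity of the isoperimetric profile, see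
the list of known facts in `MP_8d00da_gt`), so this is `ψ_μ √‖A‖ ≥ c_q` for these measures.

Method. (1) A density `∏ h_i(⟪v_i, x⟫)`, `i < N ≤ m + q`, is after an affine change of variables and
exponential tilts of the factors by a vector orthogonal to the range of `x ↦ (⟪v_i, x⟫)_i` the
section, by a linear subspace `A` of codimension `d ≤ q`, of a product density `ρ` on `ℝ^N` whose
factors `f_i` have mean zero and variance one. Let `F` be the orthogonal complement of `A`, let
`π_i` be the squared norm of the projection of the `i`-th basis vector to `F`, and let `T_i(·, a)`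
be the monotone map of `f_i` to its tilt by `exp (a s)`. New here is the thickening map `(t, λ) ↦
(T_i(t_i, λ_i))`, `t ∈ A`, `λ ∈ F` small. It is injective, the terms of first order in `λ` of its
Jacobian and of the density cancel because `λ` is orthogonal to `t`, its determinant is bounded
below by `∏ κ_i(t_i) ^ π_i`, `κ = min(∫_{-∞}^t f, ∫_t^∞ f) / f(t)`, and it moves a point by at most
`C (∑ π_i (1 + |s_i|)²)^{1/2}`, which has a bounded expectation under `ρ`. So a set of points of the
section where a Lipschitz function is far from its mean under `ρ` has, with the weight `exp (-Y)`,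
`Y = ∑ π_i (1 + |t_i| + (log 1/κ_i)₊)`, a small measure by the Poincare inequality of `ρ`; and the
expectation of `Y` under the section is bounded. With estimates for isotropic log-concave densities
in dimension `d` and `d + 1` (marginals of `ρ`), and approximation, this gives the concentration of
Lipschitz functions on a constant scale, relative to the covariance, for the density and for all its
linear images. (2) Concentration on a constant scale for all linear images implies the isoperimetric
inequality for sets of measure one half by a heat flow argument (modules `KH` of the starting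
files).

The proofs of the lemmas of the modules `RG` are by helpers 849, 901, 401, 252, 950, 864, 429, 210,
445, 809, 487, 287, 510, 333, 497, 592, 65.
-/

set_option autoImplicit false

namespace Pool.Agent.Results.MP_6d896a_gt.RidgeFunctions

open MeasureTheory Set
open scoped ENNReal InnerProductSpace

/-- Euclidean space of dimension `n` -/
abbrev Euc (n : ℕ) : Type := EuclideanSpace ℝ (Fin n)

/-- log-concave functions `h ≥ 0` on the line -/
structure LogConcave (h : ℝ → ℝ) : Prop where
  nonneg : ∀ s, 0 ≤ h s
  conc : ∀ x y t : ℝ, 0 < t → t < 1 → h x ^ (1 - t) * h y ^ t ≤ h ((1 - t) * x + t * y)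

/-- `∏_{i < N} h_i(⟪v_i, x⟫)` -/
noncomputable def ridge {m N : ℕ} (v : Fin N → Euc m) (h : Fin N → ℝ → ℝ) (x : Euc m) : ℝ :=
  ∏ i, h i ⟪v i, x⟫_ℝ

/-- the measure on `ℝ^m` with density proportional to `w` and total mass one -/
noncomputable def normalised {m : ℕ} (w : Euc m → ℝ) : Measure (Euc m) :=
  (∫⁻ x, ENNReal.ofReal (w x))⁻¹ • volume.withDensity fun x => ENNReal.ofReal (w x)

/-- the boundary measure `μ⁺(S)`, the lower limit of `(μ(S_ε) - μ(S)) / ε` for the open
neighbourhoods `S_ε` of `S` -/
noncomputable def bdry {n : ℕ} (μ : Measure (Euc n)) (S : Set (Euc n)) : ℝ≥0∞ :=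
  Filter.liminf (fun ε : ℝ => (μ (Metric.thickening ε S) - μ S) / ENNReal.ofReal ε)
    (nhdsWithin 0 (Set.Ioi 0))

/-- `μ⁺(S) √s ≥ c min(μ S, μ Sᶜ)` for all measurable sets `S` of measure one half and for every bound
`s` of the variances of the marginals of `μ` in directions of length one -/
def KLSHalf {n : ℕ} (c : ℝ) (μ : Measure (Euc n)) : Prop :=
  ∀ s : ℝ, 0 < s →
    (∀ θ : Euc n, ‖θ‖ = 1 → ProbabilityTheory.variance (fun x => ⟪x, θ⟫_ℝ) μ ≤ s) →
    ∀ S : Set (Euc n), MeasurableSet S → μ S = 1 / 2 →
      ENNReal.ofReal (c / Real.sqrt s) * min (μ S) (μ Sᶜ) ≤ bdry μ S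

/-- **KLS for products of few ridge functions and their marginals.** For every `q` there is a constant
`c > 0` such that for all `m ≥ 1`, all `N ≤ m + q`, all vectors `v_i ∈ ℝ^m` and all log-concave functions
`h_i` on the line, `i < N`, for which `w(x) = ∏ h_i(⟪v_i, x⟫)` is integrable with a positive integral
(the integral of a function which is not integrable is zero by convention), and for all linear maps
`L : ℝ^m → ℝⁿ`, the image `μ` under `L` of the probability measure with density proportional to `w` is a
probability measure with `μ⁺(S) √‖A‖ ≥ c min(μ S, μ Sᶜ)` for all measurable `S` with `μ S = 1/2`, where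
`A` is the covariance matrix of `μ`. -/
theorem result : ∀ q : ℕ, ∃ c : ℝ, 0 < c ∧
    ∀ (m N : ℕ) (v : Fin N → Euc m) (h : Fin N → ℝ → ℝ), 1 ≤ m → N ≤ m + q →
    (∀ i, LogConcave (h i)) → 0 < ∫ x, ridge v h x →
    ∀ (n : ℕ) (L : Euc m →ₗ[ℝ] Euc n) (μ : Measure (Euc n)),
      μ = Measure.map L (normalised (ridge v h)) → IsProbabilityMeasure μ ∧ KLSHalf c μ := by
  intro q
  obtain ⟨c, hc, H⟩ := Pool.Agent.Y506.RG.half_all q
  refine ⟨c, hc, fun m N v h hm hN hh hpos n L μ hμ => ?_⟩
  have hme : ∀ i, Measurable (h i) := fun i =>
    Pool.Agent.Y506.PV.meas_one (hh i).nonneg (hh i).conc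
  have hlc : ∀ i, Pool.Agent.Y506.RG.LC1 (h i) := fun i =>
    ⟨(hh i).nonneg, hme i, (hh i).conc⟩
  have hnn : ∀ x, 0 ≤ ridge v h x := fun x => Finset.prod_nonneg fun i _ => (hh i).nonneg _
  have hmr : Measurable (ridge v h) := by
    refine Finset.measurable_prod _ fun i _ => ?_
    have : Measurable fun x : Euc m => ⟪v i, x⟫_ℝ := by fun_prop
    exact (hme i).comp this
  have hint : Integrable (fun x : Euc m => (1 + ‖x‖ ^ 2) * ridge v h x) :=
    Pool.Agent.Y506.PV.int_moment hnn hmr
      (Pool.Agent.Y506.PV.lcn_ridge v h (fun i => (hh i).nonneg) fun i => (hh i).conc) hpos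
  have hA : Pool.Agent.Y506.RG.Adm (ridge v h) := ⟨hnn, hint, hpos, hmr⟩
  have hker : ∀ z : Euc m, (∀ i, ⟪v i, z⟫_ℝ = 0) → z = 0 := by
    intro z hz
    refine Pool.Agent.Y506.PV.ker_of hA z fun x => ?_
    unfold ridge
    refine Finset.prod_congr rfl fun i _ => ?_
    rw [inner_add_right, hz i, add_zero]
  obtain ⟨-, H2⟩ := H m N hm hN v hker h hlc hint hpos
  obtain ⟨hp, H3⟩ := H2 n L μ hμ
  refine ⟨hp, fun s hs hvar S hS hS2 => ?_⟩
  refine le_trans ?_ (H3 s hs hvar S hS2)
  calc ENNReal.ofReal (c / Real.sqrt s) * min (μ S) (μ Sᶜ)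
      ≤ ENNReal.ofReal (c / Real.sqrt s) * 1 :=
        mul_le_mul_right ((min_le_left _ _).trans prob_le_one) _
    _ = _ := mul_one _

theorem lc_iic (b : ℝ) : LogConcave ((Iic b).indicator fun _ => (1 : ℝ)) := by
  refine ⟨fun s => indicator_nonneg (fun _ _ => zero_le_one) s, fun x y t h0 h1 => ?_⟩
  by_cases hx : x ∈ Iic b
  · by_cases hy : y ∈ Iic b
    · have h2 : (1 - t) * x + t * y ∈ Iic b := by
        rw [mem_Iic] at hx hy ⊢
        nlinarith
      rw [indicator_of_mem hx, indicator_of_mem hy, indicator_of_mem h2, Real.one_rpow,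
        Real.one_rpow, mul_one]
    · rw [indicator_of_notMem hy, Real.zero_rpow h0.ne', mul_zero]
      exact indicator_nonneg (fun _ _ => zero_le_one) _
  · rw [indicator_of_notMem hx, Real.zero_rpow (by linarith : (1 - t) ≠ 0), zero_mul]
    exact indicator_nonneg (fun _ _ => zero_le_one) _

/-- The case of the uniform measures on polytopes with few facets and their marginals. -/
theorem polytopes : ∀ q : ℕ, ∃ c : ℝ, 0 < c ∧ ∀ (m N : ℕ) (v : Fin N → Euc m) (b : Fin N → ℝ)
    (P : Set (Euc m)), 1 ≤ m → N ≤ m + q → P = {x | ∀ i, ⟪v i, x⟫_ℝ ≤ b i} →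
    Bornology.IsBounded P → (interior P).Nonempty →
    ∀ (n : ℕ) (L : Euc m →ₗ[ℝ] Euc n),
      KLSHalf c (Measure.map L ((volume P)⁻¹ • volume.restrict P)) := by
  intro q
  obtain ⟨c, hc, H⟩ := result q
  refine ⟨c, hc, fun m N v b P hm hN hP hb hi n L => ?_⟩
  have hcl : IsClosed P := by
    have h1 : P = ⋂ i, (fun x : Euc m => ⟪v i, x⟫_ℝ) ⁻¹' (Iic (b i)) := by
      rw [hP]
      ext x
      simp
    rw [h1]
    refine isClosed_iInter fun i => isClosed_Iic.preimage ?_
    fun_prop
  have hw : ridge v (fun i => (Iic (b i)).indicator fun _ => (1 : ℝ)) =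
      Pool.Agent.Y506.PV.ind P := by
    funext x
    unfold ridge Pool.Agent.Y506.PV.ind
    by_cases hx : x ∈ P
    · rw [indicator_of_mem hx]
      refine Finset.prod_eq_one fun i _ => ?_
      rw [hP] at hx
      exact indicator_of_mem (s := Iic (b i)) (hx i) fun _ => (1 : ℝ)
    · rw [indicator_of_notMem hx]
      rw [hP, mem_ofPred_eq, not_forall] at hx
      obtain ⟨i, hi⟩ := hx
      exact Finset.prod_eq_zero (Finset.mem_univ i)
        (indicator_of_notMem (s := Iic (b i)) hi fun _ => (1 : ℝ))
  have hvol : 0 < volume P :=
    lt_of_lt_of_le (isOpen_interior.measure_pos volume hi) (measure_mono interior_subset)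
  have hA := Pool.Agent.Y506.PV.adm_ind P hcl.measurableSet hb hvol
  have h := H m N v (fun i => (Iic (b i)).indicator fun _ => (1 : ℝ)) hm hN (fun i => lc_iic _)
    (by rw [hw]; exact hA.pos) n L _ rfl
  rw [hw] at h
  have h2 := h.2
  have e := Pool.Agent.Y506.PV.pm_ind P hcl.measurableSet
  unfold Pool.Agent.Y506.RG.pm at e
  unfold normalised at h2
  rwa [e] at h2

end Pool.Agent.Results.MP_6d896a_gt.RidgeFunctions
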