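import Pool.Agent.Y506.KS.Dens2

/-!
# KLS for sections of products of low dimensional symmetric log-concave measures

The Kannan-Lovasz-Simonovits inequality, in the equivalent (Cheeger, Buser, Ledoux) form of a Poincare
inequality, for all log-concave probability measures on `ℝⁿ` with density
`ρ(x) = ∏_i φ_i(Q_i x)`, where `Q_i : ℝⁿ → ℝ^{m_i}` are linear maps, `∑ m_i ≤ n + q` and the `φ_i` are
even log-concave functions of bounded support on `ℝ^{m_i}`: restrictions of product densities to
subspaces of codimension at most `q`. If the support function of every `φ_i` is in every direction at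
most `κ` standard deviations (`κ = 2 (m + 1)` for the uniform measures on symmetric convex bodies of
dimension `m`, theorem `factor_of_body`), the Poincare constant is at most
`C κ² (1 + q)⁴ ‖Cov ρ‖`. For example KLS holds, with a constant depending only on `q`, for the uniform
measures on the symmetric polytopes with `2 (n + q)` facets.

Method. After a linear change of variables `ℝⁿ` is the orthogonal complement of a `q`-dimensional
subspace `F` of `∏ ℝ^{m_i}`. The posteriors of the Gaussian channel with input density `ρ` are of the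
same form. The covariance of such a measure is at most `C (1 + q)²` times the largest variance of
a factor: the product measure is tilted by an exponential of a linear function on `F` such
that the section through `0` becomes the heaviest one, and the covariances of the sections are
compared by the Prekopa-Leindler inequality for an exponent `1 - 1/(q+2)`. If all posterior
covariances at noise level `h` are at most `h / 4` then the Poincare constant is at most `2 h`. For
the even measure itself the covariance of the section is also bounded below, through the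
supergradient of the logarithm of the Laplace transforms of the sections.
-/

set_option autoImplicit false

namespace Pool.Agent.Results.MP_6d896a_gt.SectionsOfProducts

open MeasureTheory Set
open scoped ENNReal InnerProductSpace

/-- Euclidean space of dimension `n` -/
abbrev Euc (n : ℕ) : Type := EuclideanSpace ℝ (Fin n)

/-- `φ` is an even log-concave function with bounded support and positive integral, and its support
function is in every direction at most `κ` standard deviations:
`⟪c, s⟫² ≤ κ² (∫ ⟪c, u⟫² φ(u) du) / (∫ φ)` whenever `φ(s) ≠ 0`. -/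
structure Factor {k : ℕ} (κ : ℝ) (φ : Euc k → ℝ) : Prop where
  nonneg : ∀ s, 0 ≤ φ s
  meas : Measurable φ
  even : ∀ s, φ (-s) = φ s
  logc : ∀ s u, ∀ t : ℝ, 0 < t → t < 1 → φ s ^ (1 - t) * φ u ^ t ≤ φ ((1 - t) • s + t • u)
  bdd : ∃ R : ℝ, ∀ s, R < ‖s‖ → φ s = 0
  pos : 0 < ∫ s, φ s
  width : ∀ s c, φ s ≠ 0 → ⟪c, s⟫_ℝ ^ 2 * (∫ u, φ u) ≤ κ ^ 2 * ∫ u, ⟪c, u⟫_ℝ ^ 2 * φ u

/-- the uniform densities on symmetric convex bodies of dimension `k` are factors, `κ = 2 (k + 1)` -/
theorem factor_of_body {k : ℕ} (D : Set (Euc k)) (hc : IsCompact D) (hv : Convex ℝ D)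
    (hs : ∀ x ∈ D, -x ∈ D) (hi : (interior D).Nonempty) :
    Factor (2 * ((k : ℝ) + 1)) (D.indicator fun _ => (1 : ℝ)) := by
  have h := Pool.Agent.Y506.KS.SB.bk (D := D) ⟨hc.isClosed.measurableSet, hv, hc.isBounded, hs, hi⟩
  exact ⟨h.nonneg, h.meas, h.even, h.logc, h.bdd, h.pos, h.width⟩

/-- the density `∏ φ_i(Q_i x)` -/
noncomputable def density {n N : ℕ} {d : Fin N → ℕ} (Q : ∀ i, Euc n →ₗ[ℝ] Euc (d i))
    (φ : ∀ i, Euc (d i) → ℝ) (x : Euc n) : ℝ := ∏ i, φ i (Q i x)

/-- `Var ⟪θ, X⟫ ≤ s ‖θ‖²` for all `θ`: the covariance matrix of `μ` has norm at most `s`. -/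
def CovLe {n : ℕ} (μ : Measure (Euc n)) (s : ℝ) : Prop :=
  ∀ θ : Euc n, ProbabilityTheory.evariance (fun x => ⟪θ, x⟫_ℝ) μ ≤ ENNReal.ofReal (s * ‖θ‖ ^ 2)

/-- **KLS for sections of products of low dimensional even log-concave measures.** There is an absolute
constant `C` such that for all `n`, `q`, `N`, all linear maps `Q_i : ℝⁿ → ℝ^{m_i}`, `i < N`, with
trivial common kernel and `∑ m_i ≤ n + q`, all `κ > 0`, all even log-concave `φ_i` on `ℝ^{m_i}` with
bounded support whose support function is in every direction at most `κ` standard deviations, and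
every `s > 0` which bounds the norm of the covariance matrix of the probability measure `μ` with
density `∏ φ_i(Q_i x)`: every `C¹` function `f` and the norm of its gradient are in `L²(μ)` and
`Var_μ f ≤ C κ² (1 + q)⁴ s ∫ ‖∇ f‖² dμ`. -/
theorem result : ∃ C : ℝ, 0 < C ∧ ∀ (n q N : ℕ) (d : Fin N → ℕ) (Q : ∀ i, Euc n →ₗ[ℝ] Euc (d i))
    (φ : ∀ i, Euc (d i) → ℝ) (κ : ℝ), 0 < κ → (∀ x, (∀ i, Q i x = 0) → x = 0) →
    ∑ i, d i ≤ n + q → (∀ i, Factor κ (φ i)) → ∀ μ : Measure (Euc n),
    μ = volume.withDensity (fun x => ENNReal.ofReal (density Q φ x)) → IsProbabilityMeasure μ →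
    ∀ s : ℝ, 0 < s → CovLe μ s → ∀ f : Euc n → ℝ, ContDiff ℝ 1 f →
    MemLp f 2 μ ∧ MemLp (fun x => ‖fderiv ℝ f x‖) 2 μ ∧ ProbabilityTheory.variance f μ ≤
      C * κ ^ 2 * (1 + q) ^ 4 * s * ∫ x, ‖fderiv ℝ f x‖ ^ 2 ∂μ := by
  refine ⟨16 * 1376256, by norm_num, ?_⟩
  intro n q N d Q φ κ hκ hQ hsum hφ μ hμ hprob s hs hcov f hf
  have hB : ∀ i, Pool.Agent.Y506.KS.Bk κ (φ i) := fun i =>
    ⟨(hφ i).nonneg, (hφ i).meas, (hφ i).even, (hφ i).logc, (hφ i).bdd, (hφ i).pos, (hφ i).width⟩
  let Q' : ∀ i, Euc n →L[ℝ] Euc (d i) := fun i => LinearMap.toContinuousLinearMap (Q i)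
  have hQ' : ∀ x, (∀ i, Q' i x = 0) → x = 0 := fun x hx => hQ x hx
  have hμ' : μ = Pool.Agent.H212R2.KLS.mu (Pool.Agent.Y506.KS.dn Q' φ) := by
    rw [hμ]
    rfl
  subst hμ'
  obtain ⟨h1, h2, h3⟩ := Pool.Agent.Y506.KS.dens_var hQ' hκ hB q (by simpa using hsum) hprob s hs
    hcov f hf
  refine ⟨h1, h2, h3.trans ?_⟩
  have h4 : ((q : ℝ) + 2) ^ 4 ≤ 16 * (1 + q) ^ 4 := by
    have h5 : (q : ℝ) + 2 ≤ 2 * (1 + q) := by
      have : (0 : ℝ) ≤ q := Nat.cast_nonneg q
      linarith
    calc ((q : ℝ) + 2) ^ 4 ≤ (2 * (1 + q)) ^ 4 := pow_le_pow_left₀ (by positivity) h5 4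
      _ = _ := by ring
  refine mul_le_mul_of_nonneg_right ?_ (integral_nonneg fun x => sq_nonneg _)
  refine mul_le_mul_of_nonneg_right ?_ hs.le
  calc 1376256 * ((q : ℝ) + 2) ^ 4 * κ ^ 2 ≤ 1376256 * (16 * (1 + q) ^ 4) * κ ^ 2 := by gcongr
    _ = _ := by ring

end Pool.Agent.Results.MP_6d896a_gt.SectionsOfProducts
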